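import Mathlib

/-!
# Initial coefficients of Laurent polynomials with values in a vector space

Linear algebra for the count with the divisor.  `W : M →+ ℝ` is an injective additive weight,
elements of `U[M]` are functions `M →₀ U`, the initial coefficient of `a` is `a m` for the
exponent `m` of smallest weight.
-/

set_option autoImplicit false

namespace Pool.Agent.ALL.Lin

open Module Submodule

/-- `f` has only terms of weight at least `W m`. -/
def Lo {M X : Type*} [Zero X] (W : M → ℝ) (m : M) (f : M →₀ X) : Prop :=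
  ∀ l, f l ≠ 0 → W m ≤ W l

section Lowest

variable {M X : Type*} [Zero X]

/-- A nonzero function has a lowest exponent. -/
theorem exists_lo (W : M → ℝ) {f : M →₀ X} (hf : f ≠ 0) : ∃ m, f m ≠ 0 ∧ Lo W m f := by
  classical
  obtain ⟨m, hm, hmin⟩ := f.support.exists_min_image W (Finsupp.support_nonempty_iff.2 hf)
  exact ⟨m, Finsupp.mem_support_iff.1 hm, fun l hl => hmin l (Finsupp.mem_support_iff.2 hl)⟩

end Lowest

section Mul

variable {k M : Type*} [Field k] [AddCommGroup M] (W : M →+ ℝ)

theorem lo_one : Lo W 0 (1 : AddMonoidAlgebra k M).coeff := by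
  classical
  intro l hl
  by_cases h : l = 0
  · rw [h]
  · exfalso
    apply hl
    rw [AddMonoidAlgebra.one_def, AddMonoidAlgebra.coeff_single, Finsupp.single_eq_of_ne h]

theorem lo_mul {m m' : M} {f g : AddMonoidAlgebra k M} (hf : Lo W m f.coeff)
    (hg : Lo W m' g.coeff) : Lo W (m + m') (f * g).coeff := by
  classical
  intro l hl
  have h1 : l ∈ (f * g).coeff.support := Finsupp.mem_support_iff.2 hl
  obtain ⟨a, ha, b, hb, rfl⟩ :=
    Finset.mem_add.1 (AddMonoidAlgebra.support_coeff_mul_subset f g h1)
  rw [map_add, map_add]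
  exact add_le_add (hf a (Finsupp.mem_support_iff.1 ha)) (hg b (Finsupp.mem_support_iff.1 hb))

theorem coeff_mul (hW : Function.Injective W) {m m' : M} {f g : AddMonoidAlgebra k M}
    (hf : Lo W m f.coeff) (hg : Lo W m' g.coeff) :
    (f * g).coeff (m + m') = f.coeff m * g.coeff m' := by
  classical
  rw [AddMonoidAlgebra.coeff_mul, Finsupp.sum, Finset.sum_eq_single m]
  · rw [Finsupp.sum, Finset.sum_eq_single m']
    · rw [if_pos rfl]
    · intro b hb hne
      rw [if_neg]
      intro h
      exact hne (add_left_cancel h)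
    · intro h
      rw [if_pos rfl, Finsupp.notMem_support_iff.1 h, mul_zero]
  · intro a ha hne
    rw [Finsupp.sum]
    refine Finset.sum_eq_zero fun b hb => ?_
    rw [if_neg]
    intro h
    have h1 := hf a (Finsupp.mem_support_iff.1 ha)
    have h2 := hg b (Finsupp.mem_support_iff.1 hb)
    have h3 := congrArg W h
    rw [map_add, map_add] at h3
    exact hne (hW (le_antisymm (by linarith) h1))
  · intro h
    rw [Finsupp.notMem_support_iff.1 h]
    simp [Finsupp.sum]

theorem lo_prod {ι : Type*} (s : Finset ι) (m : ι → M) (f : ι → AddMonoidAlgebra k M)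
    (h : ∀ i ∈ s, Lo W (m i) (f i).coeff) :
    Lo W (∑ i ∈ s, m i) (∏ i ∈ s, f i).coeff := by
  classical
  induction s using Finset.induction_on with
  | empty => exact lo_one W
  | insert a s ha ih =>
    rw [Finset.sum_insert ha, Finset.prod_insert ha]
    exact lo_mul W (h a (Finset.mem_insert_self a s))
      (ih fun i hi => h i (Finset.mem_insert_of_mem hi))

theorem coeff_prod (hW : Function.Injective W) {ι : Type*} (s : Finset ι) (m : ι → M)
    (f : ι → AddMonoidAlgebra k M) (h : ∀ i ∈ s, Lo W (m i) (f i).coeff) :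
    (∏ i ∈ s, f i).coeff (∑ i ∈ s, m i) = ∏ i ∈ s, (f i).coeff (m i) := by
  classical
  induction s using Finset.induction_on with
  | empty => simp
  | insert a s ha ih =>
    have h1 := h a (Finset.mem_insert_self a s)
    have h2 : ∀ i ∈ s, Lo W (m i) (f i).coeff := fun i hi => h i (Finset.mem_insert_of_mem hi)
    rw [Finset.sum_insert ha, Finset.prod_insert ha, Finset.prod_insert ha,
      coeff_mul W hW h1 (lo_prod W s m f h2), ih h2]

/-- The product with a nonzero Laurent polynomial of a Laurent polynomial with nonzero lowest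
coefficient is nonzero. -/
theorem mul_ne_zero' (hW : Function.Injective W) {m : M} {f g : AddMonoidAlgebra k M}
    (hf : Lo W m f.coeff) (hf0 : f.coeff m ≠ 0) (hg : g ≠ 0) : f * g ≠ 0 := by
  have hg' : g.coeff ≠ 0 := fun h => hg (AddMonoidAlgebra.coeff_eq_zero.1 h)
  obtain ⟨m', hm', hlo⟩ := exists_lo W hg'
  intro h
  have h1 := coeff_mul W hW hf hlo
  rw [h] at h1
  simp only [AddMonoidAlgebra.coeff_zero, Finsupp.coe_zero, Pi.zero_apply] at h1
  exact mul_ne_zero hf0 hm' h1.symm

/-- The lowest coefficient of a determinant. -/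
theorem coeff_det (hW : Function.Injective W) {d : ℕ} (m : Fin d → M)
    (A : Matrix (Fin d) (Fin d) (AddMonoidAlgebra k M))
    (h : ∀ i j, Lo W (m j) (A i j).coeff) :
    Lo W (∑ j, m j) A.det.coeff ∧
      A.det.coeff (∑ j, m j) = (Matrix.of fun i j => (A i j).coeff (m j)).det := by
  classical
  have h1 : ∀ σ : Equiv.Perm (Fin d), ((σ.sign • ∏ i, A (σ i) i : AddMonoidAlgebra k M)).coeff =
      σ.sign • (∏ i, A (σ i) i).coeff := fun σ => by
    rcases Int.units_eq_one_or σ.sign with h | h
    · rw [h, one_smul, one_smul]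
    · rw [h, Units.neg_smul, one_smul, Units.neg_smul, one_smul, AddMonoidAlgebra.coeff_neg]
  constructor
  · intro l hl
    rw [Matrix.det_apply, AddMonoidAlgebra.coeff_sum, Finsupp.finsetSum_apply] at hl
    obtain ⟨σ, _, hσ⟩ := Finset.exists_ne_zero_of_sum_ne_zero hl
    rw [h1] at hσ
    have h2 : (∏ i, A (σ i) i).coeff l ≠ 0 := by
      intro h0
      apply hσ
      rcases Int.units_eq_one_or σ.sign with h | h
      · rw [h, one_smul, h0]
      · rw [h, Units.neg_smul, one_smul, Finsupp.neg_apply, h0, neg_zero]
    exact lo_prod W Finset.univ m (fun i => A (σ i) i) (fun i _ => h _ _) l h2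
  · rw [Matrix.det_apply, Matrix.det_apply, AddMonoidAlgebra.coeff_sum, Finsupp.finsetSum_apply]
    refine Finset.sum_congr rfl fun σ _ => ?_
    rw [h1]
    have h2 := coeff_prod W hW Finset.univ m (fun i => A (σ i) i) (fun i _ => h _ _)
    rcases Int.units_eq_one_or σ.sign with h | h
    · rw [h, one_smul, one_smul, h2]
      rfl
    · rw [h, Units.neg_smul, one_smul, Units.neg_smul, one_smul, Finsupp.neg_apply, h2]
      rfl

end Mul

section Eval

variable {k : Type*} [Field k] {r : ℕ}

/-- The character of the torus with exponent `l`. -/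
noncomputable def chr (l : Fin r → ℤ) (c : Fin r → kˣ) : k := ((∏ i, c i ^ l i : kˣ) : k)

/-- The characters, as a homomorphism in the exponent. -/
noncomputable def chE (c : Fin r → kˣ) : Multiplicative (Fin r → ℤ) →* k :=
  (Units.coeHom k).comp
    { toFun := fun l => ∏ i, c i ^ (l.toAdd i)
      map_one' := by simp
      map_mul' := fun l l' => by simp [zpow_add, Finset.prod_mul_distrib] }

/-- Evaluation of Laurent polynomials at a point of the torus. -/
noncomputable def ev (c : Fin r → kˣ) : AddMonoidAlgebra k (Fin r → ℤ) →ₐ[k] k :=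
  AddMonoidAlgebra.lift k k (Fin r → ℤ) (chE c)

theorem ev_apply (c : Fin r → kˣ) (f : AddMonoidAlgebra k (Fin r → ℤ)) :
    ev c f = f.coeff.sum fun l a => a * chr l c := by
  rw [ev, AddMonoidAlgebra.lift_apply]
  rfl

/-- Evaluation of vectors of Laurent polynomials at a point of the torus. -/
noncomputable def evU {U : Type*} [AddCommGroup U] [Module k U] (c : Fin r → kˣ) :
    ((Fin r → ℤ) →₀ U) →ₗ[k] U :=
  Finsupp.lsum k fun l => (chr l c) • LinearMap.id

theorem evU_apply {U : Type*} [AddCommGroup U] [Module k U] (c : Fin r → kˣ)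
    (a : (Fin r → ℤ) →₀ U) : evU c a = a.sum fun l u => chr l c • u := by
  rw [evU, Finsupp.lsum_apply]
  rfl

theorem evU_single {U : Type*} [AddCommGroup U] [Module k U] (c : Fin r → kˣ) (l : Fin r → ℤ)
    (u : U) : evU c (Finsupp.single l u) = chr l c • u := by
  rw [evU_apply]
  exact Finsupp.sum_single_index (smul_zero _)

theorem exists_unit_zpow_ne [Infinite k] (m : ℤ) (hm : m ≠ 0) : ∃ t : kˣ, t ^ m ≠ 1 := by
  by_contra hcon
  push Not at hcon
  have hpos : 0 < m.natAbs := Int.natAbs_pos.2 hm
  have h1 : ∀ t : kˣ, t ^ m.natAbs = 1 := by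
    intro t
    have := hcon t
    rcases Int.natAbs_eq m with h | h
    · rw [h, zpow_natCast] at this
      exact this
    · rw [h, zpow_neg, zpow_natCast, inv_eq_one] at this
      exact this
  classical
  have h2 : (Set.univ : Set k) ⊆
      insert 0 ((Polynomial.nthRoots m.natAbs (1 : k)).toFinset : Set k) := by
    intro t _
    by_cases ht : t = 0
    · left; exact ht
    · right
      have := h1 (Units.mk0 t ht)
      rw [Finset.mem_coe, Multiset.mem_toFinset, Polynomial.mem_nthRoots hpos]
      have h3 := congrArg (fun u : kˣ => (u : k)) this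
      simpa using h3
  exact Set.infinite_univ ((Set.Finite.insert 0 (Finset.finite_toSet _)).subset h2)

/-- The characters as homomorphisms in the point. -/
noncomputable def chP (l : Fin r → ℤ) : (Fin r → kˣ) →* k :=
  (Units.coeHom k).comp
    { toFun := fun c => ∏ i, c i ^ l i
      map_one' := by simp
      map_mul' := fun c d => by simp [mul_zpow, Finset.prod_mul_distrib] }

theorem chP_apply (l : Fin r → ℤ) (c : Fin r → kˣ) : chP l c = chr l c := rfl

theorem chP_injective [Infinite k] :
    Function.Injective (fun l : Fin r → ℤ => chP (k := k) l) := by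
  classical
  intro l l' h
  by_contra hne
  obtain ⟨i, hi⟩ := Function.ne_iff.1 hne
  obtain ⟨t, ht⟩ := exists_unit_zpow_ne (k := k) (l i - l' i) (sub_ne_zero.2 hi)
  apply ht
  have h1 := DFunLike.congr_fun h (Function.update (1 : Fin r → kˣ) i t)
  simp only at h1
  rw [chP_apply, chP_apply, chr, chr, Units.val_inj] at h1
  have h2 : ∀ l : Fin r → ℤ, ∏ j, (Function.update (1 : Fin r → kˣ) i t j) ^ l j = t ^ l i := by
    intro l
    rw [Finset.prod_eq_single i]
    · simp
    · intro j _ hj
      simp [Function.update_of_ne hj]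
    · intro h; exact absurd (Finset.mem_univ _) h
  rw [h2, h2] at h1
  rw [zpow_sub, h1, mul_inv_cancel]

/-- A nonzero Laurent polynomial has a nonzero value on the torus (infinite field). -/
theorem exists_ev_ne_zero [Infinite k] {f : AddMonoidAlgebra k (Fin r → ℤ)} (hf : f ≠ 0) :
    ∃ c, ev c f ≠ 0 := by
  classical
  by_contra hcon
  push Not at hcon
  apply hf
  have hli : LinearIndependent k (fun l : Fin r → ℤ => (chP l : (Fin r → kˣ) → k)) :=
    (linearIndependent_monoidHom (Fin r → kˣ) k).comp _ chP_injective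
  rw [linearIndependent_iff] at hli
  have h1 := hli f.coeff (by
    funext c
    have h2 := hcon c
    rw [ev_apply] at h2
    rw [Finsupp.linearCombination_apply, Finsupp.sum, Finset.sum_apply]
    rw [Finsupp.sum] at h2
    exact h2)
  exact AddMonoidAlgebra.coeff_eq_zero.1 h1

end Eval

section L1

variable {k : Type*} [Field k] {r : ℕ} {U : Type*} [AddCommGroup U] [Module k U]

/-- The Laurent polynomial `Σ φ(a_l) T^l`. -/
noncomputable def app (φ : U →ₗ[k] k) (a : (Fin r → ℤ) →₀ U) : AddMonoidAlgebra k (Fin r → ℤ) :=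
  AddMonoidAlgebra.ofCoeff (a.mapRange φ (map_zero φ))

theorem app_coeff (φ : U →ₗ[k] k) (a : (Fin r → ℤ) →₀ U) (l : Fin r → ℤ) :
    (app φ a).coeff l = φ (a l) := by
  rw [app, AddMonoidAlgebra.coeff_ofCoeff, Finsupp.mapRange_apply]

theorem ev_app (c : Fin r → kˣ) (φ : U →ₗ[k] k) (a : (Fin r → ℤ) →₀ U) :
    ev c (app φ a) = φ (evU c a) := by
  rw [ev_apply, app, AddMonoidAlgebra.coeff_ofCoeff,
    Finsupp.sum_mapRange_index (fun l => zero_mul _), evU_apply, Finsupp.sum, Finsupp.sum, map_sum]
  refine Finset.sum_congr rfl fun l _ => ?_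
  rw [map_smul, smul_eq_mul, mul_comm]

/-- Dual functionals of an independent family. -/
theorem exists_dual {d : ℕ} {u : Fin d → U} (hu : LinearIndependent k u) :
    ∃ φ : Fin d → (U →ₗ[k] k), ∀ i j, φ i (u j) = if i = j then 1 else 0 := by
  classical
  have h1 : ∀ i, ∃ φ : U →ₗ[k] k, φ ∘ₗ (span k (Set.range u)).subtype =
      (Basis.span hu).coord i := fun i =>
    LinearMap.exists_extend _
  choose φ hφ using h1
  refine ⟨φ, fun i j => ?_⟩
  have h2 := LinearMap.congr_fun (hφ i) (Basis.span hu j)
  rw [Basis.coord_apply, Basis.repr_self, LinearMap.comp_apply, Submodule.subtype_apply,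
    Basis.span_apply] at h2
  rw [h2, Finsupp.single_apply]
  by_cases h : i = j
  · rw [if_pos h, if_pos h.symm]
  · rw [if_neg h, if_neg (fun e => h e.symm)]

/-- **(L1), independence form.**  If the lowest coefficients of `g_1, …, g_d` are independent,
the values `g_1(c), …, g_d(c)` are independent at some point `c` of the torus where the given
Laurent polynomial `Δ ≠ 0` does not vanish. -/
theorem exists_indep [Infinite k] (W : (Fin r → ℤ) →+ ℝ) (hW : Function.Injective W)
    {Δ : AddMonoidAlgebra k (Fin r → ℤ)} (hΔ : Δ ≠ 0) {d : ℕ} (g : Fin d → (Fin r → ℤ) →₀ U)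
    (m : Fin d → Fin r → ℤ) (hlo : ∀ i, Lo W (m i) (g i))
    (hind : LinearIndependent k fun i => g i (m i)) :
    ∃ c : Fin r → kˣ, ev c Δ ≠ 0 ∧ LinearIndependent k fun i => evU c (g i) := by
  classical
  obtain ⟨φ, hφ⟩ := exists_dual hind
  set A : Matrix (Fin d) (Fin d) (AddMonoidAlgebra k (Fin r → ℤ)) :=
    Matrix.of fun i j => app (φ i) (g j) with hA
  have hAlo : ∀ i j, Lo W (m j) (A i j).coeff := by
    intro i j l hl
    rw [hA, Matrix.of_apply, app_coeff] at hl
    exact hlo j l fun h0 => hl (by rw [h0, map_zero])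
  obtain ⟨h1, h2⟩ := coeff_det W hW m A hAlo
  have h3 : (Matrix.of fun i j => (A i j).coeff (m j)) = (1 : Matrix (Fin d) (Fin d) k) := by
    ext i j
    rw [Matrix.of_apply, hA, Matrix.of_apply, app_coeff, hφ, Matrix.one_apply]
  rw [h3, Matrix.det_one] at h2
  have h4 : A.det * Δ ≠ 0 := mul_ne_zero' W hW h1 (by rw [h2]; exact one_ne_zero) hΔ
  obtain ⟨c, hc⟩ := exists_ev_ne_zero h4
  rw [map_mul] at hc
  refine ⟨c, right_ne_zero_of_mul hc, ?_⟩
  have h5 : ev c A.det ≠ 0 := left_ne_zero_of_mul hc
  have h6 : ev c A.det = (Matrix.of fun i j => φ i (evU c (g j))).det := by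
    have h7 := (ev (k := k) c).toRingHom.map_det A
    refine (h7 : ev c A.det = _).trans ?_
    congr 1
    ext i j
    rw [RingHom.mapMatrix_apply, Matrix.map_apply, Matrix.of_apply, hA, Matrix.of_apply]
    exact ev_app c (φ i) (g j)
  rw [h6] at h5
  rw [Fintype.linearIndependent_iff]
  intro b hb
  have h8 : (Matrix.of fun i j => φ i (evU c (g j))).mulVec b = 0 := by
    funext i
    rw [Matrix.mulVec, Pi.zero_apply]
    have h9 := congrArg (φ i) hb
    rw [map_sum, map_zero] at h9
    rw [← h9, dotProduct]
    refine Finset.sum_congr rfl fun j _ => ?_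
    rw [map_smul, smul_eq_mul, mul_comm, Matrix.of_apply]
  have h10 := Matrix.eq_zero_of_mulVec_eq_zero h5 h8
  intro i
  exact congrFun h10 i

/-- **(L1), dimension form.**  `AA` any set of vectors of Laurent polynomials whose values at every
point `c` of the torus with `Δ(c) ≠ 0` span a space of dimension at most `d`: the lowest
coefficients of the elements of `AA` span a space of dimension at most `d`. -/
theorem finrank_lowest_le [Infinite k] [FiniteDimensional k U] (W : (Fin r → ℤ) →+ ℝ)
    (hW : Function.Injective W)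
    {Δ : AddMonoidAlgebra k (Fin r → ℤ)} (hΔ : Δ ≠ 0) (AA : Set ((Fin r → ℤ) →₀ U)) {d : ℕ}
    (hd : ∀ c : Fin r → kˣ, ev c Δ ≠ 0 → finrank k (span k (evU c '' AA)) ≤ d) :
    finrank k (span k {u : U | ∃ a ∈ AA, ∃ m, Lo W m a ∧ u = a m}) ≤ d := by
  classical
  by_contra hcon
  rw [not_le] at hcon
  set S : Set U := {u : U | ∃ a ∈ AA, ∃ m, Lo W m a ∧ u = a m} with hS
  obtain ⟨b, hbS, hspan, hli⟩ := exists_linearIndependent k S
  have hfin : b.Finite := hli.setFinite
  have hbF : Fintype b := hfin.fintype
  have hcard : finrank k (span k S) = Fintype.card b := by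
    rw [← hspan, finrank_span_set_eq_card hli, Set.toFinset_card]
  set e := (Fintype.equivFin b).symm with he
  have hmem : ∀ i, ∃ a ∈ AA, ∃ m, Lo W m a ∧ ((e i : b) : U) = a m := fun i => hbS (e i).2
  choose g hg m hm hgm using hmem
  have hind : LinearIndependent k fun i => g i (m i) := by
    have h1 : LinearIndependent k fun i => ((e i : b) : U) := hli.comp e e.injective
    have h2 : (fun i => ((e i : b) : U)) = fun i => g i (m i) := funext hgm
    rw [← h2]; exact h1
  obtain ⟨c, hc, hci⟩ := exists_indep W hW hΔ g m hm hind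
  have h1 := hd c hc
  have h2 : Fintype.card b ≤ finrank k (span k (evU c '' AA)) := by
    have h3 : LinearIndependent k (fun i => (⟨evU c (g i), subset_span ⟨g i, hg i, rfl⟩⟩ :
        span k (evU c '' AA))) := by
      apply LinearIndependent.of_comp (span k (evU c '' AA)).subtype
      exact hci
    have h4 := h3.fintype_card_le_finrank
    rwa [Fintype.card_fin] at h4
  omega

end L1

section L3

variable {k : Type*} [Field k] {M U : Type*} [AddCommGroup U] [Module k U]

/-- Functions with all exponents in `S`: the submodule without the exponent `m`. -/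
theorem finrank_ker_add (AA : Submodule k (M →₀ U)) [FiniteDimensional k AA] (m : M) :
    finrank k (AA ⊓ LinearMap.ker (Finsupp.lapply m : (M →₀ U) →ₗ[k] U) : Submodule k (M →₀ U)) +
      finrank k (AA.map (Finsupp.lapply m : (M →₀ U) →ₗ[k] U)) = finrank k AA := by
  set f : (M →₀ U) →ₗ[k] U := Finsupp.lapply m with hf
  have h1 := LinearMap.finrank_range_add_finrank_ker (f.domRestrict AA)
  rw [LinearMap.range_domRestrict] at h1
  have h2 : finrank k (LinearMap.ker (f.domRestrict AA)) =
      finrank k (AA ⊓ LinearMap.ker f : Submodule k (M →₀ U)) := by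
    rw [LinearMap.ker_domRestrict]
    have h3 : (AA ⊓ LinearMap.ker f) = ((LinearMap.ker f).comap AA.subtype).map AA.subtype := by
      rw [Submodule.map_comap_subtype]
    rw [h3]
    exact (LinearEquiv.finrank_eq (Submodule.equivMapOfInjective AA.subtype
      (Submodule.injective_subtype AA) _)).trans rfl
  omega

/-- **(L3), basic form.**  If the initial forms of the elements of `AA` lie in `KK`, then
`dim AA ≤ dim KK`. -/
theorem finrank_le_of_initial (W : M → ℝ) (KK : Submodule k (M →₀ U))
    [FiniteDimensional k KK] (AA : Submodule k (M →₀ U)) [FiniteDimensional k AA]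
    (h : ∀ a ∈ AA, ∀ m, Lo W m a → Finsupp.single m (a m) ∈ KK) :
    finrank k AA ≤ finrank k KK := by
  classical
  -- induction on a finite set of exponents
  have key : ∀ (S : Finset M) (AA KK : Submodule k (M →₀ U)), FiniteDimensional k AA →
      FiniteDimensional k KK → (∀ a ∈ AA, a.support ⊆ S) →
      (∀ a ∈ AA, ∀ m, Lo W m a → Finsupp.single m (a m) ∈ KK) →
      finrank k AA ≤ finrank k KK := by
    intro S
    induction S using Finset.strongInduction with
    | H S ih =>
      intro AA KK hAf hKf hS h
      rcases S.eq_empty_or_nonempty with he | hne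
      · have h1 : AA = ⊥ := by
          rw [eq_bot_iff]
          intro a ha
          have h2 := hS a ha
          rw [he, Finset.subset_empty, Finsupp.support_eq_empty] at h2
          exact (Submodule.mem_bot k).2 h2
        rw [h1, finrank_bot]
        exact Nat.zero_le _
      · obtain ⟨m, hm, hmin⟩ := S.exists_min_image W hne
        set f : (M →₀ U) →ₗ[k] U := Finsupp.lapply m with hf
        have h1 := finrank_ker_add AA m
        have h2 := finrank_ker_add KK m
        rw [← hf] at h1 h2
        have hlo : ∀ a ∈ AA, Lo W m a := fun a ha l hl =>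
          hmin l (hS a ha (Finsupp.mem_support_iff.2 hl))
        have h3 : finrank k (AA.map f) ≤ finrank k (KK.map f) := by
          refine Submodule.finrank_mono ?_
          rintro _ ⟨a, ha, rfl⟩
          refine ⟨Finsupp.single m (a m), h a ha m (hlo a ha), ?_⟩
          rw [hf, Finsupp.lapply_apply, Finsupp.lapply_apply, Finsupp.single_eq_same]
        have h4 : finrank k (AA ⊓ LinearMap.ker f : Submodule k (M →₀ U)) ≤
            finrank k (KK ⊓ LinearMap.ker f : Submodule k (M →₀ U)) := by
          refine ih (S.erase m) (Finset.erase_ssubset hm) _ _ inferInstance inferInstance ?_ ?_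
          · rintro a ⟨ha, ha'⟩ l hl
            refine Finset.mem_erase.2 ⟨?_, hS a ha hl⟩
            rintro rfl
            exact Finsupp.mem_support_iff.1 hl ha'
          · rintro a ⟨ha, ha'⟩ l hl
            refine ⟨h a ha l hl, ?_⟩
            change (Finsupp.single l (a l)) m = 0
            by_cases hlm : l = m
            · subst hlm
              rw [Finsupp.single_eq_same]
              exact ha'
            · exact Finsupp.single_eq_of_ne (fun e => hlm e.symm)
        omega
  -- the exponents of a basis
  obtain ⟨T, hT⟩ := (Submodule.fg_iff_finiteDimensional AA).2 inferInstance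
  refine key (T.biUnion fun a => a.support) AA KK inferInstance inferInstance ?_ h
  intro a ha
  rw [← hT] at ha
  induction ha using Submodule.span_induction with
  | mem x hx => exact Finset.subset_biUnion_of_mem (fun a => a.support) hx
  | zero => simp
  | add x y _ _ hx hy => exact Finsupp.support_add.trans (Finset.union_subset hx hy)
  | smul c x _ hx => exact Finsupp.support_smul.trans hx

/-- **(L3), the count.**  `GG` graded and finite dimensional, `AA ≤ GG` with all lowest
coefficients in `V0`: the image of `GG` in `(U / V0)[M]` has dimension at most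
`dim GG - dim AA`. -/
theorem finrank_add_le (W : M → ℝ) (V0 : Submodule k U)
    (GG AA : Submodule k (M →₀ U)) [FiniteDimensional k GG] (hAG : AA ≤ GG)
    (hgr : ∀ g ∈ GG, ∀ m, Finsupp.single m (g m) ∈ GG)
    (hV : ∀ a ∈ AA, ∀ m, Lo W m a → a m ∈ V0) :
    finrank k AA + finrank k (GG.map (Finsupp.mapRange.linearMap (α := M) V0.mkQ)) ≤
      finrank k GG := by
  classical
  have hAf : FiniteDimensional k AA := Submodule.finiteDimensional_of_le hAG
  set π : (M →₀ U) →ₗ[k] (M →₀ (U ⧸ V0)) := Finsupp.mapRange.linearMap V0.mkQ with hπ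
  have h1 := LinearMap.finrank_range_add_finrank_ker (π.domRestrict GG)
  rw [LinearMap.range_domRestrict] at h1
  have h2 : finrank k (LinearMap.ker (π.domRestrict GG)) =
      finrank k (GG ⊓ LinearMap.ker π : Submodule k (M →₀ U)) := by
    rw [LinearMap.ker_domRestrict]
    have h3 : (GG ⊓ LinearMap.ker π) = ((LinearMap.ker π).comap GG.subtype).map GG.subtype := by
      rw [Submodule.map_comap_subtype]
    rw [h3]
    exact (LinearEquiv.finrank_eq (Submodule.equivMapOfInjective GG.subtype
      (Submodule.injective_subtype GG) _)).trans rfl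
  have h4 : finrank k AA ≤ finrank k (GG ⊓ LinearMap.ker π : Submodule k (M →₀ U)) := by
    refine finrank_le_of_initial W _ AA ?_
    intro a ha m hm
    refine ⟨hgr a (hAG ha) m, ?_⟩
    change π (Finsupp.single m (a m)) = 0
    rw [hπ, Finsupp.mapRange.linearMap_apply, Finsupp.mapRange_single]
    have h5 : V0.mkQ (a m) = 0 := (Submodule.Quotient.mk_eq_zero V0).2 (hV a ha m hm)
    rw [h5, Finsupp.single_zero]
  omega

/-- **(L3), family form.**  A family of homogeneous elements which is independent modulo `V0`
spans a space which meets `AA` in zero. -/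
theorem eq_zero_of_mem (W : M → ℝ) (V0 : Submodule k U) (AA : Set (M →₀ U))
    (hV : ∀ a ∈ AA, ∀ m, Lo W m a → a m ∈ V0) {ι : Type*} (s : ι → U) (m : ι → M)
    (hind : LinearIndependent k fun i => Finsupp.single (m i) (V0.mkQ (s i))) (b : ι →₀ k)
    (hb : (b.sum fun i x => x • Finsupp.single (m i) (s i)) ∈ AA) : b = 0 := by
  classical
  set a : M →₀ U := b.sum fun i x => x • Finsupp.single (m i) (s i) with ha
  set π : (M →₀ U) →ₗ[k] (M →₀ (U ⧸ V0)) := Finsupp.mapRange.linearMap V0.mkQ with hπ
  have hπa : π a = b.sum fun i x => x • Finsupp.single (m i) (V0.mkQ (s i)) := by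
    rw [ha, Finsupp.sum, map_sum, Finsupp.sum]
    refine Finset.sum_congr rfl fun i _ => ?_
    rw [map_smul, hπ, Finsupp.mapRange.linearMap_apply, Finsupp.mapRange_single]
  by_contra hb0
  have ha0 : a ≠ 0 := by
    intro h0
    rw [h0, map_zero] at hπa
    exact hb0 (linearIndependent_iff.1 hind b (by
      rw [Finsupp.linearCombination_apply]; exact hπa.symm))
  obtain ⟨l, hl, hlo⟩ := exists_lo W ha0
  have h1 := hV a hb l hlo
  -- the part of `b` in degree `l`
  set b' : ι →₀ k := b.filter fun i => m i = l with hb'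
  have h2 : (b'.sum fun i x => x • Finsupp.single (m i) (V0.mkQ (s i))) = 0 := by
    have h3 : (b'.sum fun i x => x • Finsupp.single (m i) (V0.mkQ (s i))) =
        Finsupp.single l ((π a) l) := by
      rw [hπa]
      ext n
      rw [Finsupp.sum, Finsupp.sum, Finsupp.finsetSum_apply, Finsupp.single_apply]
      rw [hb', Finsupp.support_filter, Finset.sum_filter]
      by_cases hn : l = n
      · subst hn
        rw [if_pos rfl, Finsupp.finsetSum_apply]
        refine Finset.sum_congr rfl fun i _ => ?_
        by_cases hi : m i = l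
        · rw [if_pos hi, Finsupp.filter_apply_pos (fun i => m i = l) b hi]
        · rw [if_neg hi, Finsupp.smul_apply, Finsupp.single_eq_of_ne (fun e => hi e.symm),
            smul_zero]
      · rw [if_neg hn]
        refine Finset.sum_eq_zero fun i _ => ?_
        by_cases hi : m i = l
        · rw [if_pos hi, Finsupp.smul_apply, hi, Finsupp.single_eq_of_ne (fun e => hn e.symm),
            smul_zero]
        · rw [if_neg hi]
    rw [h3]
    have h4 : (π a) l = V0.mkQ (a l) := by
      rw [hπ, Finsupp.mapRange.linearMap_apply, Finsupp.mapRange_apply]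
    have h5 : V0.mkQ (a l) = 0 := (Submodule.Quotient.mk_eq_zero V0).2 h1
    rw [h4, h5, Finsupp.single_zero]
  have h3 : b' = 0 := linearIndependent_iff.1 hind b' (by
    rw [Finsupp.linearCombination_apply]; exact h2)
  apply hl
  rw [ha, Finsupp.sum, Finsupp.finsetSum_apply]
  refine Finset.sum_eq_zero fun i _ => ?_
  by_cases hi : m i = l
  · have h5 := DFunLike.congr_fun h3 i
    rw [hb', Finsupp.filter_apply_pos (fun i => m i = l) b hi, Finsupp.zero_apply] at h5
    rw [h5, zero_smul, Finsupp.zero_apply]
  · rw [Finsupp.smul_apply, Finsupp.single_eq_of_ne (fun e => hi e.symm), smul_zero]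

end L3

end Pool.Agent.ALL.Lin
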